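import Pool.Agent.Lib.MP_7753cf_ag_h64.EvenOddFinal

/-!
# MP_7753cf_ag: `A(n,d)` fails the strong Lefschetz property for all even `n` and odd `d ≥ 3`

`B K n` is the subalgebra `K[e_1,…,e_n]` of `K[x_1,…,x_n]`, `ehat K n d k` is
`e_k(x_1^d,…,x_n^d)`, `hatIdeal K n d` is the ideal of `B K n` generated by `ehat K n d k`,
`1 ≤ k ≤ n`, `A K n d` is the quotient ring, `piece K n d j` its graded piece of degree `j`
and `SLP K n d` the strong Lefschetz property.

Idea of the proof (`n = 2r`). The specialisation `x = (t_1,-t_1,…,t_r,-t_r)` kills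
`e_1, e_3, …` and, `d` being odd, also `ê_1, ê_3, …`. It maps `A(n,d)/(e_1)` onto `A(r,d)` with
doubled degrees, whose top degree `(d-1)r(r+1)` lies above the middle degree `(d-1)r(2r+1)/2` of
`A(n,d)`; so multiplication by a power of `e_1` is not onto in that degree. The
determinant of a matrix expressing `ê_1,ê_3,…` in terms of `e_1,e_3,…` gives a non-zero element
annihilated by `e_1`, which shows that the same map is not injective.
-/

set_option autoImplicit false

namespace Pool.Agent.Results.MP_7753cf_ag.EvenOdd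

open Pool.Agent.MP_7753cf

theorem result (K : Type*) [Field K] [CharZero K] (n d : ℕ) (hn : Even n) (hn2 : 2 ≤ n)
    (hd : Odd d) (hd3 : 3 ≤ d) : ¬ SLP K n d := by
  obtain ⟨r, hr⟩ := hn
  exact not_SLP (r := r) (by omega) (by omega) hd hd3

end Pool.Agent.Results.MP_7753cf_ag.EvenOdd
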