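import Pool.Agent.Lib.MP_7753cf_ag_h64.EvenOddFinal
import Pool.Agent.Lib.MP_7753cf_ag_h64.TwoVarB

/-!
# MP_7753cf_ag: `A(2,d)` has the strong Lefschetz property exactly for `d = 1` and `d` even

Idea for `d = 2m`. An element of degree `j < d` of `B` in the kernel of `e_1^(c-2j)` gives,
after setting `e_1 = 1`, `e_2 = u`, a relation `G(u) - b(u) u^d = a(u) P_d(u)` where the left
side has at most `m` terms, and `P_d` (the power sum `x^d + y^d`) has the `m` distinct positive
roots `1/(4 cos^2 θ)`, `cos(dθ) = 0`. By Descartes' rule of signs `G = 0`. A functional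
`K → ℚ` applied to the coefficients reduces the general field to the reals.
-/

set_option autoImplicit false

namespace Pool.Agent.Results.MP_7753cf_ag.TwoVariables

open Pool.Agent.MP_7753cf

theorem result (K : Type*) [Field K] [CharZero K] (d : ℕ) (hd : 1 ≤ d) :
    SLP K 2 d ↔ d = 1 ∨ Even d := by
  constructor
  · intro h
    by_contra hcon
    push Not at hcon
    obtain ⟨h1, h2⟩ := hcon
    have h3 : Odd d := Nat.not_even_iff_odd.1 h2
    have h4 : d ≠ 2 := by
      rintro rfl; exact absurd h3 (by decide)
    exact not_SLP (r := 1) (by norm_num) le_rfl h3 (by omega) h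
  · rintro (rfl | ⟨m, hm⟩)
    · exact SLP_two_one
    · exact SLP_two_even (m := m) (by omega) (by omega)

end Pool.Agent.Results.MP_7753cf_ag.TwoVariables
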